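import Pool.Agent.U602.AB.Lin
import Pool.Agent.TH915.PW.DigitsMain

set_option autoImplicit false
set_option linter.unusedSectionVars false

/-! Record gaps around a number and its real multiples, with a prescribed value of a function with
values in a finite abelian group. -/

namespace Pool.Agent.U602.AB

open Finset Filter Topology
open Pool.Agent.H469R2.NK (e norm_e e_add e_zero)
open Pool.Agent.W147.PS (ff ff_compare ev_pow)
open Pool.Agent.TH915.PW (char_count)
open Pool.Agent.U602.AU (geom_real)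

section

variable {G : Type} [AddCommGroup G] [Fintype G]

/-- the sums over the fibres -/
lemma fibre_sum [DecidableEq G] (H : ℕ) (S : ℕ → G) (E : ℝ) (hE0 : 0 ≤ E)
    (hE : ∀ χ : AddChar G ℂ, χ ≠ 0 → ∀ x : ℝ, ‖∑ n ∈ range H, χ (S n) * e (n * x)‖ ≤ E)
    (g : G) (x : ℝ) :
    ‖(Fintype.card G : ℂ) * (∑ n ∈ (range H).filter (fun n => S n = g), e (x * n)) -
      ∑ n ∈ range H, e (n * x)‖ ≤ Fintype.card G * E := by
  classical
  have h0 : (0 : AddChar G ℂ) ∈ (univ : Finset (AddChar G ℂ)) := mem_univ _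
  rw [char_count, ← add_sum_erase _ _ h0]
  have h1 : ((0 : AddChar G ℂ) (-g) *
      ∑ n ∈ range H, (0 : AddChar G ℂ) (S n) * e (n * x)) = ∑ n ∈ range H, e (n * x) := by
    simp
  rw [h1, add_sub_cancel_left]
  refine (norm_sum_le _ _).trans ?_
  have h2 : ∀ χ ∈ (univ : Finset (AddChar G ℂ)).erase 0,
      ‖χ (-g) * ∑ n ∈ range H, χ (S n) * e (n * x)‖ ≤ E := by
    intro χ hχ
    rw [norm_mul, χ.norm_apply, one_mul]
    exact hE χ (ne_of_mem_erase hχ) x
  refine (sum_le_card_nsmul _ _ _ h2).trans ?_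
  rw [nsmul_eq_mul]
  apply mul_le_mul_of_nonneg_right _ hE0
  have h3 : ((univ : Finset (AddChar G ℂ)).erase 0).card ≤ Fintype.card (AddChar G ℂ) :=
    (card_le_card (erase_subset _ _)).trans (by rw [card_univ])
  rw [AddChar.card_eq] at h3
  exact_mod_cast h3

open scoped Classical in
theorem block_group_lin (r : ℕ) (hr : 1 ≤ r)
    (α β : Fin r → ℝ) (hα : ∀ j, 0 < α j) (c τ : ℝ) (hc : 0 < c) (hτ : 0 ≤ τ)
    (hdio : ∀ (H : ℕ) (h : Fin r → ℤ), h ≠ 0 → (∀ j, |h j| ≤ H) → ∀ m : ℤ,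
      c * (H : ℝ) ^ (-τ) ≤ |∑ j, (h j : ℝ) * α j - m|)
    (η : ℝ) (hη0 : 0 < η) (hη1 : η ≤ 1 / 2) :
    ∃ κ : ℝ, 0 < κ ∧ ∀ᶠ M : ℝ in atTop, ∀ N H : ℕ, M ≤ N → M ^ ((τ + 4) * η) ≤ H →
      ∀ S : ℕ → G, (∀ χ : AddChar G ℂ, χ ≠ 0 → ∀ x : ℝ,
        ‖∑ n ∈ range H, χ (S n) * e (n * x)‖ ≤ H * M ^ (-(2 * η))) →
      ∀ g : G, ∃ n < H, S n = g ∧
        (∀ q : ℕ, q.Prime → κ * ff M < |(q : ℝ) - ((N + n : ℕ) : ℝ)|) ∧
        ∀ j, ∀ q : ℕ, q.Prime → κ * ff M < |(q : ℝ) - (α j * ((N + n : ℕ) : ℝ) + β j)| := by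
  obtain ⟨κ, hκ, hblock⟩ := block_lin r hr α β hα c τ hc hτ hdio η hη0 hη1
  refine ⟨κ, hκ, ?_⟩
  set cG : ℝ := (Fintype.card G : ℝ) with hcG
  have hcG1 : 1 ≤ cG := by
    rw [hcG]
    exact_mod_cast Fintype.card_pos
  filter_upwards [hblock, eventually_ge_atTop (1 : ℝ), ev_pow 0 η (8 * cG) hη0]
    with M hM hM1 hM8
  intro N H hN hH S hS g
  have hM0 : 0 < M := by linarith
  rw [Real.rpow_zero, mul_one] at hM8
  have hMη0 : 0 < M ^ η := by linarith
  set s : Finset ℕ := (range H).filter (fun n => S n = g) with hs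
  have hH0 : (0 : ℝ) < H := lt_of_lt_of_le (by positivity) hH
  have hdiff := fibre_sum H S (H * M ^ (-(2 * η))) (by positivity) hS g
  have h2η : M ^ (-(2 * η)) = M ^ (-η) * M ^ (-η) := by
    rw [← Real.rpow_add hM0]
    congr 1
    ring
  have hMn : M ^ (-η) ≤ 1 / (8 * cG) := by
    rw [Real.rpow_neg hM0.le, ← one_div]
    exact one_div_le_one_div_of_le (by positivity) hM8
  have hMn0 : 0 < M ^ (-η) := by positivity
  have hcard : (H : ℝ) / 2 ≤ cG * s.card := by
    have h1 := hdiff 0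
    simp only [zero_mul, mul_zero, e_zero, sum_const, nsmul_eq_mul, mul_one, card_range] at h1
    have h2 : ((Fintype.card G : ℂ) * (s.card : ℂ) - (H : ℂ)) =
        ((cG * s.card - H : ℝ) : ℂ) := by
      rw [hcG]; push_cast; ring
    rw [h2, Complex.norm_real, Real.norm_eq_abs] at h1
    have h3 := (abs_le.mp h1).1
    have h4 : cG * (H * M ^ (-(2 * η))) ≤ H / 8 := by
      rw [h2η]
      have h5 : cG * M ^ (-η) ≤ 1 / 8 := by
        calc cG * M ^ (-η) ≤ cG * (1 / (8 * cG)) := by gcongr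
          _ = 1 / 8 := by field_simp
      have h6 : M ^ (-η) ≤ 1 := by
        refine hMn.trans ?_
        rw [div_le_one (by positivity)]
        linarith
      calc cG * (H * (M ^ (-η) * M ^ (-η))) = (cG * M ^ (-η)) * (H * M ^ (-η)) := by ring
        _ ≤ 1 / 8 * (H * 1) := by gcongr
        _ = _ := by ring
    linarith
  have hspos : (0 : ℝ) < s.card := by
    by_contra hneg
    push Not at hneg
    have h1 : (s.card : ℝ) = 0 := le_antisymm hneg (Nat.cast_nonneg _)
    rw [h1, mul_zero] at hcard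
    linarith
  have hinj : Function.Injective (fun n : ℕ => N + n) := fun a b h => by simpa using h
  obtain ⟨m, hm, h1, h2⟩ := hM (s.image (fun n => N + n)) (by
      rw [image_nonempty, ← card_pos]
      exact_mod_cast hspos) (by
    intro m hm
    obtain ⟨n, _, rfl⟩ := mem_image.1 hm
    push_cast
    have : (0 : ℝ) ≤ n := Nat.cast_nonneg n
    linarith) (by
    intro θ hθ
    rw [card_image_of_injective _ hinj, sum_image (fun a _ b _ h => hinj h)]
    have e1 : ∑ n ∈ s, e (θ * ((N + n : ℕ) : ℝ)) = e (θ * N) * ∑ n ∈ s, e (θ * n) := by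
      rw [mul_sum]
      refine sum_congr rfl fun n _ => ?_
      rw [← e_add]
      congr 1
      push_cast
      ring
    rw [e1, norm_mul, norm_e, one_mul]
    have e2 := hdiff θ
    have e3 := geom_real θ (M ^ (-((τ + 2) * η))) (by positivity) hθ H
    have e5 : ‖(Fintype.card G : ℂ) * ∑ n ∈ s, e (θ * n)‖ ≤
        ‖(Fintype.card G : ℂ) * (∑ n ∈ s, e (θ * n)) - ∑ n ∈ range H, e (n * θ)‖ +
          ‖∑ n ∈ range H, e (n * θ)‖ := by
      have := norm_add_le ((Fintype.card G : ℂ) * (∑ n ∈ s, e (θ * n)) -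
          ∑ n ∈ range H, e (n * θ)) (∑ n ∈ range H, e (n * θ))
      rwa [sub_add_cancel] at this
    rw [norm_mul, Complex.norm_natCast] at e5
    have e6 : cG * ‖∑ n ∈ s, e (θ * n)‖ ≤ cG * (s.card * M ^ (-η)) := by
      have e7 : cG * ‖∑ n ∈ s, e (θ * n)‖ ≤
          cG * (H * M ^ (-(2 * η))) + 2 / M ^ (-((τ + 2) * η)) := by linarith
      refine e7.trans ?_
      have e8 : cG * (H * M ^ (-(2 * η))) ≤ H / 8 * M ^ (-η) := by
        rw [h2η]
        calc cG * (H * (M ^ (-η) * M ^ (-η))) = (cG * M ^ (-η)) * (H * M ^ (-η)) := by ring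
          _ ≤ (cG * (1 / (8 * cG))) * (H * M ^ (-η)) := by gcongr
          _ = _ := by field_simp
      have e9 : 2 / M ^ (-((τ + 2) * η)) ≤ H / 4 * M ^ (-η) := by
        have g1 : M ^ ((τ + 4) * η) = M ^ ((τ + 2) * η) * (M ^ η * M ^ η) := by
          rw [← Real.rpow_add hM0, ← Real.rpow_add hM0]
          congr 1
          ring
        have g2 : 2 / M ^ (-((τ + 2) * η)) = 2 * M ^ ((τ + 2) * η) := by
          rw [Real.rpow_neg hM0.le]
          field_simp
        rw [g2]
        have g3 : M ^ η * M ^ (-η) = 1 := by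
          rw [← Real.rpow_add hM0]; simp
        calc 2 * M ^ ((τ + 2) * η) = 8 * M ^ ((τ + 2) * η) / 4 := by ring
          _ ≤ M ^ η * M ^ ((τ + 2) * η) / 4 := by
              gcongr
              nlinarith
          _ = M ^ ((τ + 2) * η) * (M ^ η * M ^ η) / 4 * M ^ (-η) := by
              rw [← g1]
              have g4 : M ^ ((τ + 4) * η) * M ^ (-η) = M ^ η * M ^ ((τ + 2) * η) := by
                rw [← Real.rpow_add hM0, ← Real.rpow_add hM0]
                congr 1
                ring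
              linarith
          _ ≤ H / 4 * M ^ (-η) := by
              rw [← g1]
              gcongr
      have e10 : cG * (s.card * M ^ (-η)) = (cG * s.card) * M ^ (-η) := by ring
      rw [e10]
      have e11 : (H : ℝ) / 2 * M ^ (-η) ≤ (cG * s.card) * M ^ (-η) := by gcongr
      have e12 : 0 ≤ (H : ℝ) * M ^ (-η) := by positivity
      nlinarith
    exact le_of_mul_le_mul_left e6 (by linarith))
  obtain ⟨n, hn, rfl⟩ := mem_image.1 hm
  rw [hs, mem_filter, mem_range] at hn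
  exact ⟨n, hn.1, hn.2, h1, h2⟩

end

end Pool.Agent.U602.AB
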