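import Pool.Agent.U602.SM.Local
import Pool.Agent.U602.AB.Grp

set_option autoImplicit false
set_option linter.unusedSectionVars false

/-! Record gaps around the values of smooth functions in separated blocks of integers. -/

namespace Pool.Agent.U602.AB

open Finset Filter Topology
open Pool.Agent.H469R2.NK (e norm_e e_add e_zero)
open Pool.Agent.W147.PS (ff ff_compare ev_pow)
open Pool.Agent.Y961.JR (crit_scaledJ)
open Pool.Agent.U602.SM (linear_approx diff_bounds unif combo_bounds hasDerivAt_combo e_sub_le)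
open Pool.Agent.U602.AU (geom_real)

lemma sep_card (F : Finset ℕ) (B : ℕ) (hB : 0 < B) (hsep : ∀ x ∈ F, ∀ y ∈ F, x < y → x + B ≤ y)
    (a b : ℕ) (ha : ∀ x ∈ F, a ≤ x) (hb : ∀ x ∈ F, x ≤ b) : F.card ≤ (b - a) / B + 1 := by
  have h1 : F.card ≤ (range ((b - a) / B + 1)).card := by
    apply card_le_card_of_injOn (fun x => (x - a) / B)
    · intro x hx
      have hx' : x ∈ F := hx
      simp only [coe_range, Set.mem_Iio]
      apply Nat.lt_succ_of_le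
      apply Nat.div_le_div_right
      have := hb x hx'
      omega
    · intro x hx y hy hxy
      have hx' : x ∈ F := hx
      have hy' : y ∈ F := hy
      simp only at hxy
      rcases lt_trichotomy x y with h | h | h
      · exfalso
        have h2 := hsep x hx' y hy' h
        have h3 : (x - a) / B + 1 ≤ (y - a) / B := by
          rw [← Nat.add_div_right _ hB]
          apply Nat.div_le_div_right
          have := ha x hx'
          omega
        omega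
      · exact h
      · exfalso
        have h2 := hsep y hy' x hx' h
        have h3 : (y - a) / B + 1 ≤ (x - a) / B := by
          rw [← Nat.add_div_right _ hB]
          apply Nat.div_le_div_right
          have := ha y hy'
          omega
        omega
  rwa [card_range] at h1

open scoped Classical in
/-- few points are close to an integer -/
lemma count_sep (Ω : Finset ℕ) (B : ℕ) (hB : 0 < B)
    (hsep : ∀ x ∈ Ω, ∀ y ∈ Ω, x < y → x + B ≤ y) (g : ℕ → ℝ) (lam V ρ : ℝ) (hlam : 0 < lam)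
    (hρ : 0 < ρ) (hρ1 : ρ ≤ 1) (hV : 0 ≤ V)
    (h1 : ∀ x ∈ Ω, ∀ y ∈ Ω, lam * |(x : ℝ) - y| ≤ |g x - g y|)
    (h2 : ∀ x ∈ Ω, ∀ y ∈ Ω, |g x - g y| ≤ V) :
    ((Ω.filter (fun x => ∃ k : ℤ, |g x - k| < ρ)).card : ℝ) ≤
      (2 * V + 3) * (2 * ρ / (lam * B) + 1) := by
  have hB0 : (0 : ℝ) < B := by exact_mod_cast hB
  have hnn : 0 ≤ (2 * V + 3) * (2 * ρ / (lam * B) + 1) := by positivity
  rcases Ω.eq_empty_or_nonempty with hΩ | ⟨x0, hx0⟩
  · rw [hΩ]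
    simpa using hnn
  have hk : ∀ w : ℕ, ∃ k : ℤ, (∃ k : ℤ, |g w - k| < ρ) → |g w - k| < ρ := by
    intro w
    by_cases h : ∃ k : ℤ, |g w - k| < ρ
    · obtain ⟨k, hk⟩ := h
      exact ⟨k, fun _ => hk⟩
    · exact ⟨0, fun h' => absurd h' h⟩
  choose k hk using hk
  set S : Finset ℕ := Ω.filter (fun w => ∃ k : ℤ, |g w - k| < ρ) with hS
  have hSm : ∀ w ∈ S, w ∈ Ω ∧ |g w - k w| < ρ := by
    intro w hw
    rw [hS, mem_filter] at hw
    exact ⟨hw.1, hk w hw.2⟩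
  set I : Finset ℤ := Icc (⌈g x0 - V - ρ⌉) (⌊g x0 + V + ρ⌋) with hI
  have hmaps : ∀ w ∈ S, k w ∈ I := by
    intro w hw
    obtain ⟨e1, e2⟩ := hSm w hw
    have e3 := abs_le.1 (h2 w e1 x0 hx0)
    have e4 := abs_lt.1 e2
    rw [hI, mem_Icc]
    constructor
    · apply Int.ceil_le.2
      linarith [e3.1, e4.2]
    · apply Int.le_floor.2
      linarith [e3.2, e4.1]
  have hIcard : (I.card : ℝ) ≤ 2 * V + 3 := by
    rw [hI, Int.card_Icc]
    have e1 : ((⌊g x0 + V + ρ⌋ : ℤ) : ℝ) ≤ g x0 + V + ρ := Int.floor_le _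
    have e2 : g x0 - V - ρ ≤ ((⌈g x0 - V - ρ⌉ : ℤ) : ℝ) := Int.le_ceil _
    have e3 : (((⌊g x0 + V + ρ⌋ + 1 - ⌈g x0 - V - ρ⌉).toNat : ℕ) : ℤ) ≤
        max (⌊g x0 + V + ρ⌋ + 1 - ⌈g x0 - V - ρ⌉) 0 := by omega
    have e4 : ((((⌊g x0 + V + ρ⌋ + 1 - ⌈g x0 - V - ρ⌉).toNat : ℕ) : ℤ) : ℝ) ≤
        ((max (⌊g x0 + V + ρ⌋ + 1 - ⌈g x0 - V - ρ⌉) 0 : ℤ) : ℝ) := by exact_mod_cast e3
    rw [Int.cast_natCast] at e4
    refine e4.trans ?_
    push_cast
    apply max_le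
    · linarith
    · linarith
  have hfib : ∀ z ∈ I, ((S.filter (fun w => k w = z)).card : ℝ) ≤ 2 * ρ / (lam * B) + 1 := by
    intro z _
    rcases (S.filter (fun w => k w = z)).eq_empty_or_nonempty with he | hne
    · rw [he]
      simp
      positivity
    · set F := S.filter (fun w => k w = z) with hF
      have hm1 := F.min'_mem hne
      have hm2 := F.max'_mem hne
      set a := F.min' hne with ha
      set b := F.max' hne with hb
      have hab : a ≤ b := F.min'_le_max' hne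
      have e2 := sep_card F B hB (fun x hx y hy hxy => by
        rw [hF, mem_filter] at hx hy
        exact hsep x (hSm x hx.1).1 y (hSm y hy.1).1 hxy) a b (fun x hx => F.min'_le x hx)
        (fun x hx => F.le_max' x hx)
      have e3 : (F.card : ℝ) ≤ ((b : ℝ) - a) / B + 1 := by
        have f1 : ((F.card : ℕ) : ℝ) ≤ (((b - a) / B + 1 : ℕ) : ℝ) := by exact_mod_cast e2
        refine f1.trans ?_
        push_cast
        have f2 : (((b - a) / B : ℕ) : ℝ) ≤ ((b - a : ℕ) : ℝ) / B := Nat.cast_div_le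
        rw [Nat.cast_sub hab] at f2
        linarith
      rw [hF, mem_filter] at hm1 hm2
      obtain ⟨a1, a2⟩ := hSm a hm1.1
      obtain ⟨b1, b2⟩ := hSm b hm2.1
      have e4 := h1 b b1 a a1
      rw [hm1.2] at a2
      rw [hm2.2] at b2
      have e5 : |g b - g a| ≤ 2 * ρ := by
        have e6 := abs_lt.1 a2
        have e7 := abs_lt.1 b2
        rw [abs_le]
        constructor <;> linarith [e6.1, e6.2, e7.1, e7.2]
      have e6 : lam * ((b : ℝ) - a) ≤ 2 * ρ := by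
        have : |(b : ℝ) - a| = (b : ℝ) - a := abs_of_nonneg (by
          have : (a : ℝ) ≤ b := by exact_mod_cast hab
          linarith)
        rw [this] at e4
        linarith
      have e7 : ((b : ℝ) - a) / B ≤ 2 * ρ / (lam * B) := by
        rw [div_le_div_iff₀ hB0 (by positivity)]
        nlinarith
      linarith
  have h3 : S.card = ∑ z ∈ I, (S.filter (fun w => k w = z)).card :=
    card_eq_sum_card_fiberwise (fun w hw => hmaps w hw)
  have h4 : (S.card : ℝ) = ∑ z ∈ I, ((S.filter (fun w => k w = z)).card : ℝ) := by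
    exact_mod_cast h3
  rw [h4]
  calc ∑ z ∈ I, ((S.filter (fun w => k w = z)).card : ℝ) ≤ ∑ z ∈ I, (2 * ρ / (lam * B) + 1) :=
        sum_le_sum hfib
    _ = I.card * (2 * ρ / (lam * B) + 1) := by rw [sum_const, nsmul_eq_mul]
    _ ≤ _ := by gcongr

open scoped Classical in
/-- one frequency -/
lemma bad_one (r : ℕ) (cm ε₁ η : ℝ) (hε₁ : 0 < ε₁)
    (hη : 0 < η) (hε₂ : 4 * ε₁ ≤ 2 - cm) (hε₃ : 4 * ε₁ ≤ 1) (hη2 : ((r : ℝ) + 6) * η ≤ ε₁)
    (D : ℝ) (hD : 1 ≤ D) :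
    ∀ᶠ X : ℝ in atTop, ∀ B : ℕ, 0 < B → (B : ℝ) ≤ X ^ ε₁ → ∀ Ω : Finset ℕ,
      (∀ N ∈ Ω, X / D ≤ N ∧ (N : ℝ) ≤ X) → (∀ x ∈ Ω, ∀ y ∈ Ω, x < y → x + B ≤ y) →
      ∀ (F1 F2 : ℝ → ℝ) (c' : ℝ), 1 ≤ c' → c' ≤ cm →
      (∀ t, X / D ≤ t → HasDerivAt F1 (F2 t) t) →
      (∀ t, X / D ≤ t → t ≤ X → X ^ (c' - 2 - 3 * η) ≤ |F2 t| ∧
        |F2 t| ≤ X ^ (c' - 2 + 3 * η)) →
      ((Ω.filter (fun N : ℕ => ∃ k : ℤ, |F1 (N : ℝ) - k| < X ^ (-((r + 10) * η)))).card : ℝ) ≤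
        X / B * X ^ (-((r + 3) * η)) := by
  have hrR : (0 : ℝ) ≤ r := Nat.cast_nonneg r
  filter_upwards [eventually_ge_atTop (1 : ℝ),
    ev_pow (-((r + 4) * η)) (-((r + 3) * η)) 16 (by linarith),
    ev_pow (-((r + 7) * η)) (-((r + 3) * η)) 24 (by linarith),
    ev_pow (cm - 1 + 3 * η) (1 - ε₁ - (r + 3) * η) 8 (by nlinarith),
    ev_pow 0 (1 - ε₁ - (r + 3) * η) 12 (by nlinarith)]
    with X hX1 p1 p2 p3 p4
  intro B hB hBX Ω hΩ hsep F1 F2 c' hc'1 hc'm hd hF2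
  have hX0 : 0 < X := by linarith
  have hB0 : (0 : ℝ) < B := by exact_mod_cast hB
  have hD0 : 0 < D := by linarith
  set lam : ℝ := X ^ (c' - 2 - 3 * η) with hlam
  set V : ℝ := X ^ (c' - 2 + 3 * η) * X with hV
  set ρ : ℝ := X ^ (-((r + 10) * η)) with hρ
  have hlam0 : 0 < lam := by positivity
  have hV0 : 0 ≤ V := by positivity
  have hρ0 : 0 < ρ := by positivity
  have hρ1 : ρ ≤ 1 := Real.rpow_le_one_of_one_le_of_nonpos hX1 (by nlinarith)
  have hdb : ∀ x ∈ Ω, ∀ y ∈ Ω,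
      lam * |(x : ℝ) - y| ≤ |F1 x - F1 y| ∧
        |F1 x - F1 y| ≤ X ^ (c' - 2 + 3 * η) * |(x : ℝ) - y| := by
    intro x hx y hy
    exact diff_bounds F1 F2 (X / D) X _ _ (fun t ht _ => hd t ht)
      (fun t ht1 ht2 => hF2 t ht1 ht2) _ _ (hΩ x hx).1 (hΩ x hx).2 (hΩ y hy).1 (hΩ y hy).2
  have hcnt := count_sep Ω B hB hsep (fun N => F1 N) lam V ρ hlam0 hρ0 hρ1
    hV0 (fun x hx y hy => (hdb x hx y hy).1) (by
      intro x hx y hy
      refine (hdb x hx y hy).2.trans ?_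
      rw [hV]
      apply mul_le_mul_of_nonneg_left _ (by positivity)
      have e1 := (hΩ x hx).2
      have e2 := (hΩ y hy).2
      have e3 : (0 : ℝ) ≤ x := Nat.cast_nonneg x
      have e4 : (0 : ℝ) ≤ y := Nat.cast_nonneg y
      rw [abs_le]
      constructor <;> linarith)
  refine hcnt.trans ?_
  have hY : X ^ (1 - ε₁) ≤ X / B := by
    rw [le_div_iff₀ hB0]
    calc X ^ (1 - ε₁) * B ≤ X ^ (1 - ε₁) * X ^ ε₁ := by gcongr
      _ = X := by
        rw [← Real.rpow_add hX0]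
        have : 1 - ε₁ + ε₁ = 1 := by ring
        rw [this, Real.rpow_one]
  have hY0 : 0 < X / B := by positivity
  have hZ : X ^ (1 - ε₁ - (r + 3) * η) ≤ X / B * X ^ (-((r + 3) * η)) := by
    have : 1 - ε₁ - (r + 3) * η = (1 - ε₁) + (-((r + 3) * η)) := by ring
    rw [this, Real.rpow_add hX0]
    gcongr
  set Z : ℝ := X / B * X ^ (-((r + 3) * η)) with hZd
  have t1 : 4 * V * ρ / (lam * B) ≤ Z / 4 := by
    have e1 : 4 * V * ρ / (lam * B) = X / B * (16 * X ^ (-((r + 4) * η))) / 4 := by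
      have e2 : X ^ (-((r + 4) * η)) * X ^ (c' - 2 - 3 * η) = X ^ (c' - 2 + 3 * η) * ρ := by
        rw [hρ, ← Real.rpow_add hX0, ← Real.rpow_add hX0]
        congr 1
        ring
      have e5 : 4 * V * ρ = 4 * X * (X ^ (c' - 2 + 3 * η) * ρ) := by
        rw [hV]; ring
      rw [e5, ← e2, hlam]
      field_simp
      ring
    rw [e1]
    have e4 : X / B * (16 * X ^ (-((r + 4) * η))) ≤ Z := by
      rw [hZd]; gcongr
    linarith
  have t2 : 2 * V ≤ Z / 4 := by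
    have e1 : V ≤ X ^ (cm - 1 + 3 * η) := by
      rw [hV]
      have e2 : X ^ (cm - 1 + 3 * η) = X ^ (cm - 2 + 3 * η) * X := by
        nth_rewrite 3 [← Real.rpow_one X]
        rw [← Real.rpow_add hX0]
        congr 1
        ring
      rw [e2]
      have e3 : X ^ (c' - 2 + 3 * η) ≤ X ^ (cm - 2 + 3 * η) :=
        Real.rpow_le_rpow_of_exponent_le hX1 (by linarith)
      gcongr
    linarith
  have t3 : 6 * ρ / (lam * B) ≤ Z / 4 := by
    have e1 : ρ / (lam * B) ≤ X / B * X ^ (-((r + 7) * η)) := by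
      rw [div_le_iff₀ (by positivity), hlam]
      have e2 : ρ ≤ X * X ^ (-((r + 7) * η)) * X ^ (c' - 2 - 3 * η) := by
        nth_rewrite 1 [← Real.rpow_one X]
        rw [hρ, ← Real.rpow_add hX0, ← Real.rpow_add hX0]
        apply Real.rpow_le_rpow_of_exponent_le hX1
        linarith
      have e3 : X / B * X ^ (-((r + 7) * η)) * (X ^ (c' - 2 - 3 * η) * B) =
          X * X ^ (-((r + 7) * η)) * X ^ (c' - 2 - 3 * η) := by
        field_simp
      rw [e3]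
      exact e2
    have e4 : X / B * (24 * X ^ (-((r + 7) * η))) ≤ Z := by
      rw [hZd]; gcongr
    have e5 : 6 * ρ / (lam * B) = 6 * (ρ / (lam * B)) := by ring
    rw [e5]
    linarith
  have t4 : 3 ≤ Z / 4 := by
    rw [Real.rpow_zero] at p4
    linarith
  have e0 : (2 * V + 3) * (2 * ρ / (lam * B) + 1) =
      4 * V * ρ / (lam * B) + 2 * V + 6 * ρ / (lam * B) + 3 := by ring
  rw [e0]
  refine (add_le_add (add_le_add (add_le_add t1 t2) t3) t4).trans (le_of_eq ?_)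
  ring

/-- the good starting points -/
def Good (r : ℕ) (f1 : Fin r → ℝ → ℝ) (η X : ℝ) (N : ℕ) : Prop :=
  ∀ q : ℕ, 1 ≤ q → (q : ℝ) ≤ X ^ η → ∀ h : Fin r → ℤ, h ≠ 0 → (∀ j, |(h j : ℝ)| ≤ X ^ η) →
    ∀ k : ℤ, X ^ (-((r + 10) * η)) ≤ |∑ j, (h j : ℝ) * (f1 j N / q) - k|

open scoped Classical in
/-- few blocks are bad -/
theorem bad_count (r : ℕ) (hr : 1 ≤ r) (c : Fin r → ℝ) (cm : ℝ)
    (hc1 : ∀ j, 1 ≤ c j) (hcm : ∀ j, c j ≤ cm) (g0 : ℝ)
    (hgap : ∀ i j, i ≠ j → g0 ≤ |c i - c j|)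
    (f1 f2 : Fin r → ℝ → ℝ)
    (hd2 : ∀ j, ∀ᶠ t : ℝ in atTop, HasDerivAt (f1 j) (f2 j t) t)
    (hord : ∀ j, ∀ σ : ℝ, 0 < σ → ∀ᶠ t : ℝ in atTop,
      t ^ (c j - 2 - σ) ≤ |f2 j t| ∧ |f2 j t| ≤ t ^ (c j - 2 + σ))
    (ε₁ η : ℝ) (hε₁ : 0 < ε₁) (hη : 0 < η) (hη0 : 4 * η ≤ g0)
    (hε₂ : 4 * ε₁ ≤ 2 - cm) (hε₃ : 4 * ε₁ ≤ 1) (hη2 : ((r : ℝ) + 6) * η ≤ ε₁)
    (D : ℝ) (hD : 1 ≤ D) :
    ∀ᶠ X : ℝ in atTop, ∀ B : ℕ, 0 < B → (B : ℝ) ≤ X ^ ε₁ → ∀ Ω : Finset ℕ,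
      (∀ N ∈ Ω, X / D ≤ N ∧ (N : ℝ) ≤ X) → (∀ x ∈ Ω, ∀ y ∈ Ω, x < y → x + B ≤ y) →
      ((Ω.filter (fun N => ¬ Good r f1 η X N)).card : ℝ) ≤ X / B * X ^ (-η) := by
  have hrR : (1 : ℝ) ≤ r := by exact_mod_cast hr
  have hD0 : 0 < D := by linarith
  have hd2' : ∀ᶠ t : ℝ in atTop, ∀ j, HasDerivAt (f1 j) (f2 j t) t := eventually_all.2 hd2
  filter_upwards [bad_one r cm ε₁ η hε₁ hη hε₂ hε₃ hη2 D hD,
    combo_bounds r c η D cm hη hD hc1 hcm
      (fun i j hij => by linarith [hgap i j hij]) f2 hord,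
    unif D hD0 hd2', eventually_ge_atTop (1 : ℝ),
    ev_pow (-(2 * η)) (-η) (3 ^ r) (by linarith)]
    with X hone hcombo hXd2 hX1 p1
  intro B hB hBX Ω hΩ hsep
  have hX0 : 0 < X := by linarith
  have hXη : 1 ≤ X ^ η := Real.one_le_rpow hX1 hη.le
  have hB0 : (0 : ℝ) < B := by exact_mod_cast hB
  set H : ℕ := ⌊X ^ η⌋₊ with hH
  have hHX : (H : ℝ) ≤ X ^ η := Nat.floor_le (by positivity)
  set J : Finset (ℕ × (Fin r → ℤ)) :=
    ((Icc 1 H) ×ˢ (Fintype.piFinset fun _ => Icc (-(H : ℤ)) H)).filter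
      (fun p => p.2 ≠ 0) with hJ
  set bad : ℕ × (Fin r → ℤ) → Finset ℕ := fun p => Ω.filter (fun N : ℕ =>
    ∃ k : ℤ, |∑ j, (p.2 j : ℝ) * (f1 j (N : ℝ) / p.1) - k| < X ^ (-((r + 10) * η)))
    with hbad
  have hsub : Ω.filter (fun N => ¬ Good r f1 η X N) ⊆ J.biUnion bad := by
    intro w hw
    rw [mem_filter] at hw
    obtain ⟨hw1, hw2⟩ := hw
    unfold Good at hw2
    push Not at hw2
    obtain ⟨q, hq1, hq2, h, hh, hh2, k, hk⟩ := hw2
    rw [mem_biUnion]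
    refine ⟨(q, h), ?_, ?_⟩
    · rw [hJ, mem_filter]
      refine ⟨?_, hh⟩
      simp only [mem_product, mem_Icc, Fintype.mem_piFinset]
      refine ⟨⟨hq1, Nat.le_floor hq2⟩, ?_⟩
      intro j
      have e1 : ((h j).natAbs : ℝ) ≤ X ^ η := by
        have : ((h j).natAbs : ℝ) = |(h j : ℝ)| := by
          rw [Nat.cast_natAbs]; push_cast; rfl
        rw [this]
        exact hh2 j
      have e2 : (h j).natAbs ≤ H := Nat.le_floor e1
      omega
    · rw [hbad]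
      simp only [mem_filter]
      exact ⟨hw1, k, hk⟩
  have hcardJ : (J.card : ℝ) ≤ 3 ^ r * X ^ ((r + 1) * η) := by
    have e1 : J.card ≤ H * (2 * H + 1) ^ r := by
      rw [hJ]
      refine (card_filter_le _ _).trans (le_of_eq ?_)
      rw [card_product, Nat.card_Icc, Fintype.card_piFinset, prod_const, card_univ,
        Fintype.card_fin, Int.card_Icc]
      congr 2
      omega
    have e2 : (J.card : ℝ) ≤ H * (2 * H + 1) ^ r := by exact_mod_cast e1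
    refine e2.trans ?_
    have e3 : (2 * (H : ℝ) + 1) ≤ 3 * X ^ η := by linarith
    have e4 : X ^ ((r + 1) * η) = X ^ η * (X ^ η) ^ r := by
      rw [← Real.rpow_natCast (X ^ η) r, ← Real.rpow_mul hX0.le, ← Real.rpow_add hX0]
      congr 1
      ring
    rw [e4]
    calc (H : ℝ) * (2 * H + 1) ^ r ≤ X ^ η * (3 * X ^ η) ^ r := by gcongr
      _ = _ := by rw [mul_pow]; ring
  have hbadp : ∀ p ∈ J, ((bad p).card : ℝ) ≤ X / B * X ^ (-((r + 3) * η)) := by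
    intro p hp
    rw [hJ, mem_filter] at hp
    obtain ⟨hp1, hp2⟩ := hp
    simp only [mem_product, mem_Icc, Fintype.mem_piFinset] at hp1
    obtain ⟨⟨hq1, hq2⟩, hh⟩ := hp1
    have hq2' : (p.1 : ℝ) ≤ X ^ η := (by exact_mod_cast hq2 : (p.1 : ℝ) ≤ H).trans hHX
    have hh' : ∀ j, |(p.2 j : ℝ)| ≤ X ^ η := by
      intro j
      have e1 : |((p.2 j : ℤ) : ℝ)| ≤ H := by
        rw [abs_le]
        constructor
        · have := (hh j).1
          exact_mod_cast this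
        · have := (hh j).2
          exact_mod_cast this
      exact e1.trans hHX
    obtain ⟨c', h1, h2, h3⟩ := hcombo p.1 hq1 hq2' p.2 hp2 hh'
    exact hone B hB hBX Ω hΩ hsep (fun t => ∑ j, (p.2 j : ℝ) * (f1 j t / p.1))
      (fun t => ∑ j, (p.2 j : ℝ) * (f2 j t / p.1)) c' h1 h2
      (fun t ht => hasDerivAt_combo f1 f2 p.2 p.1 t (hXd2 t ht)) h3
  calc _ ≤ ((J.biUnion bad).card : ℝ) := by exact_mod_cast card_le_card hsub
    _ ≤ ((∑ p ∈ J, (bad p).card : ℕ) : ℝ) := by exact_mod_cast card_biUnion_le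
    _ = ∑ p ∈ J, ((bad p).card : ℝ) := by push_cast; rfl
    _ ≤ ∑ p ∈ J, X / B * X ^ (-((r + 3) * η)) := sum_le_sum hbadp
    _ = J.card * (X / B * X ^ (-((r + 3) * η))) := by rw [sum_const, nsmul_eq_mul]
    _ ≤ 3 ^ r * X ^ ((r + 1) * η) * (X / B * X ^ (-((r + 3) * η))) := by
        gcongr
    _ = X / B * (3 ^ r * X ^ (-(2 * η))) := by
        have : X ^ (-(2 * η)) = X ^ ((r + 1) * η) * X ^ (-((r + 3) * η)) := by
          rw [← Real.rpow_add hX0]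
          congr 1
          ring
        rw [this]
        ring
    _ ≤ X / B * X ^ (-η) := by gcongr

open scoped Classical in
/-- a good block contains a point with gaps around the values -/
theorem block_smooth (r : ℕ) (hr : 1 ≤ r) (c : Fin r → ℝ) (cm : ℝ) (hc1 : ∀ j, 1 ≤ c j)
    (hcm : ∀ j, c j ≤ cm) (g0 : ℝ) (hgap : ∀ i j, i ≠ j → g0 ≤ |c i - c j|)
    (f f1 f2 : Fin r → ℝ → ℝ) (hd1 : ∀ j, ∀ᶠ t : ℝ in atTop, HasDerivAt (f j) (f1 j t) t)
    (hd2 : ∀ j, ∀ᶠ t : ℝ in atTop, HasDerivAt (f1 j) (f2 j t) t)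
    (hord : ∀ j, ∀ σ : ℝ, 0 < σ → ∀ᶠ t : ℝ in atTop,
      t ^ (c j - 2 - σ) ≤ |f2 j t| ∧ |f2 j t| ≤ t ^ (c j - 2 + σ))
    (τ : ℝ) (hτ : 0 < τ) (hpos : ∀ j, ∀ᶠ t : ℝ in atTop, t ^ τ ≤ f j t)
    (ε₁ : ℝ) (hε₂ : 4 * ε₁ ≤ 2 - cm) (D : ℝ) (hD : 1 ≤ D)
    (η : ℝ) (hη : 0 < η) (hη1 : η ≤ 1) (hη2 : η ≤ g0 / 4) (hη3 : η ≤ τ / 4) (hη4 : η ≤ ε₁ / 4) :
    ∃ κ : ℝ, 0 < κ ∧ ∀ᶠ X : ℝ in atTop,
      ∀ B N0 : ℕ, (B : ℝ) ≤ X ^ ε₁ → X / D ≤ N0 → (N0 : ℝ) + B ≤ X →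
      Good r f1 η X N0 → ∀ s : Finset ℕ, s.Nonempty → (∀ m ∈ s, m < B) →
      (∀ θ : ℝ, (∀ k : ℤ, X ^ (-((r + 10) * η)) ≤ |θ - k|) →
        ‖∑ m ∈ s, e (θ * m)‖ ≤ s.card * (X ^ (-η) / 2)) →
      ∃ m ∈ s, ∀ j, ∀ q : ℕ, q.Prime → κ * ff X < |(q : ℝ) - f j ((N0 + m : ℕ) : ℝ)| := by
  have hrR : (1 : ℝ) ≤ r := by exact_mod_cast hr
  obtain ⟨κ, hκ, hcrit⟩ := crit_scaledJ r hr η hη hη1
  refine ⟨κ, hκ, ?_⟩
  have hD0 : 0 < D := by linarith
  have hd1' : ∀ᶠ t : ℝ in atTop, ∀ j, HasDerivAt (f j) (f1 j t) t := eventually_all.2 hd1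
  have hd2' : ∀ᶠ t : ℝ in atTop, ∀ j, HasDerivAt (f1 j) (f2 j t) t := eventually_all.2 hd2
  have hpos' : ∀ᶠ t : ℝ in atTop, ∀ j, t ^ τ ≤ f j t := eventually_all.2 hpos
  filter_upwards [hcrit, combo_bounds r c η D cm hη hD hc1 hcm
      (fun i j hij => by linarith [hgap i j hij]) f2 hord,
    unif D hD0 hd1', unif D hD0 hd2', unif D hD0 hpos',
    eventually_ge_atTop (1 : ℝ),
    ev_pow η τ (D ^ τ) (by linarith),
    ev_pow (cm - 2 + 3 * η + 2 * ε₁) (-η) (4 * Real.pi) (by linarith)]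
    with X hX hcombo hXd1 hXd2 hXpos hX1 p1 p2
  intro B N0 hL2 hN1 hN2 hgood s hsne hsB hsum
  have hX0 : 0 < X := by linarith
  have hB0 : (0 : ℝ) ≤ B := Nat.cast_nonneg B
  have hsB' : ∀ m ∈ s, (m : ℝ) ≤ B := fun m hm => by exact_mod_cast (hsB m hm).le
  exact hX ℕ s (fun m j => f j ((N0 + m : ℕ) : ℝ)) hsne (by
    intro m hm j
    have e1 : X / D ≤ ((N0 + m : ℕ) : ℝ) := by
      push_cast
      have : (0 : ℝ) ≤ m := Nat.cast_nonneg m
      linarith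
    refine le_trans ?_ (hXpos _ e1 j)
    have e2 : (X / D) ^ τ ≤ ((N0 + m : ℕ) : ℝ) ^ τ :=
      Real.rpow_le_rpow (by positivity) e1 hτ.le
    refine le_trans ?_ e2
    rw [Real.div_rpow hX0.le hD0.le, le_div_iff₀ (Real.rpow_pos_of_pos hD0 _), mul_comm]
    exact p1) (by
    intro q hq hqX h hh hhX
    have hq0 : (0 : ℝ) < q := by exact_mod_cast hq
    obtain ⟨c', hc'1, hc'm, hcb⟩ := hcombo q hq hqX h hh hhX
    set F : ℝ → ℝ := fun t => ∑ j, (h j : ℝ) * (f j t / q) with hF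
    set F1 : ℝ → ℝ := fun t => ∑ j, (h j : ℝ) * (f1 j t / q) with hF1
    set F2 : ℝ → ℝ := fun t => ∑ j, (h j : ℝ) * (f2 j t / q) with hF2
    set θ : ℝ := F1 N0 with hθ
    have happ : ∀ m ∈ s, |F ((N0 + m : ℕ) : ℝ) - (F N0 + θ * m)| ≤
        X ^ (cm - 2 + 3 * η) * (B : ℝ) ^ 2 := by
      intro m hm
      have := linear_approx F F1 F2 N0 B (X ^ (cm - 2 + 3 * η)) hB0
        (fun t ht1 ht2 => hasDerivAt_combo f f1 h q t (hXd1 t (hN1.trans ht1)))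
        (fun t ht1 ht2 => hasDerivAt_combo f1 f2 h q t (hXd2 t (hN1.trans ht1)))
        (fun t ht1 ht2 => (hcb t (hN1.trans ht1) (ht2.trans hN2)).2.trans
          (Real.rpow_le_rpow_of_exponent_le hX1 (by linarith))) m (Nat.cast_nonneg m) (hsB' m hm)
      push_cast
      exact this
    have hB2 : X ^ (cm - 2 + 3 * η) * (B : ℝ) ^ 2 ≤ X ^ (cm - 2 + 3 * η + 2 * ε₁) := by
      have e1 : (B : ℝ) ^ 2 ≤ (X ^ ε₁) ^ 2 := by gcongr
      have e2 : (X ^ ε₁) ^ 2 = X ^ (2 * ε₁) := by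
        rw [← Real.rpow_natCast, ← Real.rpow_mul hX0.le]
        congr 1
        push_cast
        ring
      rw [Real.rpow_add hX0 (cm - 2 + 3 * η) (2 * ε₁), ← e2]
      gcongr
    have herr : ‖∑ m ∈ s, e (F ((N0 + m : ℕ) : ℝ)) - ∑ m ∈ s, e (F N0 + θ * m)‖ ≤
        s.card * (X ^ (-η) / 2) := by
      rw [← sum_sub_distrib]
      refine (norm_sum_le _ _).trans ?_
      have e1 : ∀ m ∈ s, ‖e (F ((N0 + m : ℕ) : ℝ)) - e (F N0 + θ * m)‖ ≤ X ^ (-η) / 2 := by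
        intro m hm
        refine (e_sub_le _ _).trans ?_
        have e2 := (happ m hm).trans hB2
        have e3 : 2 * Real.pi * |F ((N0 + m : ℕ) : ℝ) - (F N0 + θ * m)| ≤
            2 * Real.pi * X ^ (cm - 2 + 3 * η + 2 * ε₁) := by gcongr
        linarith
      refine (sum_le_sum e1).trans (le_of_eq ?_)
      rw [sum_const, nsmul_eq_mul]
    have e1 : ∑ m ∈ s, e (F N0 + θ * m) = e (F N0) * ∑ m ∈ s, e (θ * m) := by
      rw [mul_sum]
      exact sum_congr rfl fun m _ => e_add _ _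
    have hmain : ‖∑ m ∈ s, e (F N0 + θ * m)‖ ≤ s.card * (X ^ (-η) / 2) := by
      rw [e1, norm_mul, norm_e, one_mul]
      exact hsum θ (fun k => hgood q hq hqX h hh hhX k)
    have hfin : ‖∑ m ∈ s, e (F ((N0 + m : ℕ) : ℝ))‖ ≤ s.card * X ^ (-η) := by
      have h1 : ∑ m ∈ s, e (F ((N0 + m : ℕ) : ℝ)) =
          (∑ m ∈ s, e (F ((N0 + m : ℕ) : ℝ)) - ∑ m ∈ s, e (F N0 + θ * m)) +
            ∑ m ∈ s, e (F N0 + θ * m) := by ring
      rw [h1]
      refine (norm_add_le _ _).trans ?_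
      linarith
    exact hfin)

section

variable {G : Type} [AddCommGroup G] [Fintype G]

open scoped Classical in
/-- a good block contains a point with gaps around the values and a prescribed value of a function
with small sums -/
theorem block_group_smooth (r : ℕ) (hr : 1 ≤ r) (c : Fin r → ℝ) (cm : ℝ) (hc1 : ∀ j, 1 ≤ c j)
    (hcm : ∀ j, c j ≤ cm) (g0 : ℝ) (hgap : ∀ i j, i ≠ j → g0 ≤ |c i - c j|)
    (f f1 f2 : Fin r → ℝ → ℝ) (hd1 : ∀ j, ∀ᶠ t : ℝ in atTop, HasDerivAt (f j) (f1 j t) t)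
    (hd2 : ∀ j, ∀ᶠ t : ℝ in atTop, HasDerivAt (f1 j) (f2 j t) t)
    (hord : ∀ j, ∀ σ : ℝ, 0 < σ → ∀ᶠ t : ℝ in atTop,
      t ^ (c j - 2 - σ) ≤ |f2 j t| ∧ |f2 j t| ≤ t ^ (c j - 2 + σ))
    (τ : ℝ) (hτ : 0 < τ) (hpos : ∀ j, ∀ᶠ t : ℝ in atTop, t ^ τ ≤ f j t)
    (ε₁ : ℝ) (hε₂ : 4 * ε₁ ≤ 2 - cm) (D : ℝ) (hD : 1 ≤ D)
    (η : ℝ) (hη : 0 < η) (hη1 : η ≤ 1) (hη2 : η ≤ g0 / 4) (hη3 : η ≤ τ / 4) (hη4 : η ≤ ε₁ / 4) :
    ∃ κ : ℝ, 0 < κ ∧ ∀ᶠ X : ℝ in atTop,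
      ∀ B N0 : ℕ, X ^ ((r + 12) * η) ≤ B → (B : ℝ) ≤ X ^ ε₁ → X / D ≤ N0 → (N0 : ℝ) + B ≤ X →
      Good r f1 η X N0 → ∀ S : ℕ → G, (∀ χ : AddChar G ℂ, χ ≠ 0 → ∀ x : ℝ,
        ‖∑ n ∈ range B, χ (S n) * e (n * x)‖ ≤ B * X ^ (-(2 * η))) →
      ∀ g : G, ∃ m < B, S m = g ∧
        ∀ j, ∀ q : ℕ, q.Prime → κ * ff X < |(q : ℝ) - f j ((N0 + m : ℕ) : ℝ)| := by
  obtain ⟨κ, hκ, hblock⟩ := block_smooth r hr c cm hc1 hcm g0 hgap f f1 f2 hd1 hd2 hord τ hτ
    hpos ε₁ hε₂ D hD η hη hη1 hη2 hη3 hη4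
  refine ⟨κ, hκ, ?_⟩
  set cG : ℝ := (Fintype.card G : ℝ) with hcG
  have hcG1 : 1 ≤ cG := by
    rw [hcG]
    exact_mod_cast Fintype.card_pos
  have hrR : (0 : ℝ) ≤ r := Nat.cast_nonneg r
  filter_upwards [hblock, eventually_ge_atTop (1 : ℝ), ev_pow 0 η (16 * cG) hη]
    with X hX hX1 hX8
  intro B N0 hBX hB hN1 hN2 hgood S hS g
  have hX0 : 0 < X := by linarith
  rw [Real.rpow_zero, mul_one] at hX8
  have hXη0 : 0 < X ^ η := by linarith
  set s : Finset ℕ := (range B).filter (fun n => S n = g) with hs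
  have hH0 : (0 : ℝ) < B := lt_of_lt_of_le (by positivity) hBX
  have hdiff := fibre_sum B S (B * X ^ (-(2 * η))) (by positivity) hS g
  have h2η : X ^ (-(2 * η)) = X ^ (-η) * X ^ (-η) := by
    rw [← Real.rpow_add hX0]
    congr 1
    ring
  have hMn : X ^ (-η) ≤ 1 / (16 * cG) := by
    rw [Real.rpow_neg hX0.le, ← one_div]
    exact one_div_le_one_div_of_le (by positivity) hX8
  have hMn0 : 0 < X ^ (-η) := by positivity
  have hcard : (B : ℝ) / 2 ≤ cG * s.card := by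
    have h1 := hdiff 0
    simp only [zero_mul, mul_zero, e_zero, sum_const, nsmul_eq_mul, mul_one, card_range] at h1
    have h2 : ((Fintype.card G : ℂ) * (s.card : ℂ) - (B : ℂ)) =
        ((cG * s.card - B : ℝ) : ℂ) := by
      rw [hcG]; push_cast; ring
    rw [h2, Complex.norm_real, Real.norm_eq_abs] at h1
    have h3 := (abs_le.mp h1).1
    have h4 : cG * (B * X ^ (-(2 * η))) ≤ B / 8 := by
      rw [h2η]
      have h5 : cG * X ^ (-η) ≤ 1 / 8 := by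
        calc cG * X ^ (-η) ≤ cG * (1 / (16 * cG)) := by gcongr
          _ = 1 / 16 := by field_simp
          _ ≤ 1 / 8 := by norm_num
      have h6 : X ^ (-η) ≤ 1 := by
        refine hMn.trans ?_
        rw [div_le_one (by positivity)]
        linarith
      calc cG * (B * (X ^ (-η) * X ^ (-η))) = (cG * X ^ (-η)) * (B * X ^ (-η)) := by ring
        _ ≤ 1 / 8 * (B * 1) := by gcongr
        _ = _ := by ring
    linarith
  have hspos : (0 : ℝ) < s.card := by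
    by_contra hneg
    push Not at hneg
    have h1 : (s.card : ℝ) = 0 := le_antisymm hneg (Nat.cast_nonneg _)
    rw [h1, mul_zero] at hcard
    linarith
  obtain ⟨m, hm, h1⟩ := hX B N0 hB hN1 hN2 hgood s (by
      rw [← card_pos]
      exact_mod_cast hspos) (fun m hm => by
        rw [hs, mem_filter, mem_range] at hm
        exact hm.1) (by
    intro θ hθ
    have e2 := hdiff θ
    have e3 := geom_real θ (X ^ (-((r + 10) * η))) (by positivity) hθ B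
    have e5 : ‖(Fintype.card G : ℂ) * ∑ n ∈ s, e (θ * n)‖ ≤
        ‖(Fintype.card G : ℂ) * (∑ n ∈ s, e (θ * n)) - ∑ n ∈ range B, e (n * θ)‖ +
          ‖∑ n ∈ range B, e (n * θ)‖ := by
      have := norm_add_le ((Fintype.card G : ℂ) * (∑ n ∈ s, e (θ * n)) -
          ∑ n ∈ range B, e (n * θ)) (∑ n ∈ range B, e (n * θ))
      rwa [sub_add_cancel] at this
    rw [norm_mul, Complex.norm_natCast] at e5
    have e6 : cG * ‖∑ n ∈ s, e (θ * n)‖ ≤ cG * (s.card * (X ^ (-η) / 2)) := by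
      have e7 : cG * ‖∑ n ∈ s, e (θ * n)‖ ≤
          cG * (B * X ^ (-(2 * η))) + 2 / X ^ (-((r + 10) * η)) := by linarith
      refine e7.trans ?_
      have e8 : cG * (B * X ^ (-(2 * η))) ≤ B / 16 * X ^ (-η) := by
        rw [h2η]
        calc cG * (B * (X ^ (-η) * X ^ (-η))) = (cG * X ^ (-η)) * (B * X ^ (-η)) := by ring
          _ ≤ (cG * (1 / (16 * cG))) * (B * X ^ (-η)) := by gcongr
          _ = _ := by field_simp
      have e9 : 2 / X ^ (-((r + 10) * η)) ≤ B / 8 * X ^ (-η) := by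
        have g2 : 2 / X ^ (-((r + 10) * η)) = 2 * X ^ ((r + 10) * η) := by
          rw [Real.rpow_neg hX0.le]
          field_simp
        rw [g2]
        have g4 : X ^ ((r + 12) * η) * X ^ (-η) = X ^ η * X ^ ((r + 10) * η) := by
          rw [← Real.rpow_add hX0, ← Real.rpow_add hX0]
          congr 1
          ring
        calc 2 * X ^ ((r + 10) * η) = 16 * X ^ ((r + 10) * η) / 8 := by ring
          _ ≤ X ^ η * X ^ ((r + 10) * η) / 8 := by
              gcongr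
              nlinarith
          _ = X ^ ((r + 12) * η) / 8 * X ^ (-η) := by
              rw [← g4]
              ring
          _ ≤ B / 8 * X ^ (-η) := by gcongr
      have e10 : cG * (s.card * (X ^ (-η) / 2)) = (cG * s.card) * X ^ (-η) / 2 := by ring
      rw [e10]
      have e11 : (B : ℝ) / 2 * X ^ (-η) ≤ (cG * s.card) * X ^ (-η) := by gcongr
      have e12 : 0 ≤ (B : ℝ) * X ^ (-η) := by positivity
      nlinarith
    exact le_of_mul_le_mul_left e6 (by linarith))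
  rw [hs, mem_filter, mem_range] at hm
  exact ⟨m, hm.1, hm.2, h1⟩

end

end Pool.Agent.U602.AB
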