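import Pool.Agent.U602.AB.Smooth

set_option autoImplicit false
set_option linter.unusedSectionVars false

/-! Record gaps around the values of smooth functions at many numbers with a prescribed value of a
function with small exponential sums in blocks. -/

namespace Pool.Agent.U602.AB

open Finset Filter Topology
open Pool.Agent.H469R2.NK (e norm_e e_add e_zero)
open Pool.Agent.W147.PS (ff ff_compare ev_pow)

section

variable {G : Type} [AddCommGroup G] [Fintype G]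

/-- the exponential sums with the characters of `f` are small in well placed blocks -/
def Blocks (f : ℕ → G) : Prop :=
  ∃ γ : ℝ, 0 < γ ∧ ∀ δ : ℝ, 0 < δ → ∀ᶠ X : ℝ in atTop, ∃ B : ℕ, X ^ δ / 4 ≤ B ∧ (B : ℝ) ≤ X ^ δ ∧
    ∀ x : ℕ, ∃ N : ℕ, x ≤ N ∧ N ≤ x + 2 * B ∧ ∀ χ : AddChar G ℂ, χ ≠ 0 → ∀ θ : ℝ,
      ‖∑ n ∈ range B, χ (f (N + n)) * e (n * θ)‖ ≤ B * X ^ (-(γ * δ))

open scoped Classical in
theorem family_smooth (f₀ : ℕ → G) (hf : Blocks f₀) (r : ℕ) (hr : 1 ≤ r) (c : Fin r → ℝ)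
    (hc1 : ∀ j, 1 ≤ c j) (hc2 : ∀ j, c j < 2) (hc : Function.Injective c)
    (f f1 f2 : Fin r → ℝ → ℝ) (hd1 : ∀ j, ∀ᶠ t : ℝ in atTop, HasDerivAt (f j) (f1 j t) t)
    (hd2 : ∀ j, ∀ᶠ t : ℝ in atTop, HasDerivAt (f1 j) (f2 j t) t)
    (hord : ∀ j, ∀ σ : ℝ, 0 < σ → ∀ᶠ t : ℝ in atTop,
      t ^ (c j - 2 - σ) ≤ |f2 j t| ∧ |f2 j t| ≤ t ^ (c j - 2 + σ))
    (τ : ℝ) (hτ : 0 < τ) (hpos : ∀ j, ∀ᶠ t : ℝ in atTop, t ^ τ ≤ f j t)
    (ε : ℝ) (hε : 0 < ε) :
    ∃ κ : ℝ, 0 < κ ∧ ∀ᶠ X : ℝ in atTop, ∀ g : G, X ^ (1 - ε) ≤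
      (((range (⌊X⌋₊ + 1)).filter (fun n => f₀ n = g ∧
        ∀ j, ∀ q : ℕ, q.Prime → κ * ff X < |(q : ℝ) - f j (n : ℝ)|)).card : ℝ) := by
  obtain ⟨γ, hγ, hblocks⟩ := hf
  -- the largest exponent
  obtain ⟨cm, hcm, hcm2⟩ : ∃ cm : ℝ, (∀ j, c j ≤ cm) ∧ cm < 2 := by
    have hne : (univ : Finset (Fin r)).Nonempty := ⟨⟨0, hr⟩, mem_univ _⟩
    refine ⟨univ.sup' hne c, fun j => le_sup' c (mem_univ j), ?_⟩
    rw [sup'_lt_iff]
    exact fun j _ => hc2 j
  -- the gap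
  obtain ⟨g0, hg0, hgap⟩ : ∃ g0 : ℝ, 0 < g0 ∧ ∀ i j, i ≠ j → g0 ≤ |c i - c j| := by
    have h1 : ∀ p : Fin r × Fin r, ∃ g : ℝ, 0 < g ∧ (p.1 ≠ p.2 → g ≤ |c p.1 - c p.2|) := by
      intro p
      by_cases hp : p.1 = p.2
      · exact ⟨1, one_pos, fun h => absurd hp h⟩
      · exact ⟨|c p.1 - c p.2|, abs_pos.2 (sub_ne_zero.2 fun h => hp (hc h)), fun _ => le_rfl⟩
    choose g hg hg2 using h1
    have hne : (univ : Finset (Fin r × Fin r)).Nonempty := ⟨(⟨0, hr⟩, ⟨0, hr⟩), mem_univ _⟩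
    refine ⟨univ.inf' hne g, ?_, ?_⟩
    · rw [lt_inf'_iff]
      exact fun p _ => hg p
    · intro i j hij
      exact (inf'_le g (mem_univ (i, j))).trans (hg2 (i, j) hij)
  have hrR : (1 : ℝ) ≤ r := by exact_mod_cast hr
  set ε₁ : ℝ := min (ε / 2) (min ((2 - cm) / 4) (1 / 4)) with hε₁d
  have hε₁ : 0 < ε₁ := by
    have : 0 < 2 - cm := by linarith
    rw [hε₁d]
    positivity
  have hε₁a : ε₁ ≤ ε / 2 := min_le_left _ _
  have hε₁b : ε₁ ≤ (2 - cm) / 4 := (min_le_right _ _).trans (min_le_left _ _)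
  have hε₁c : ε₁ ≤ 1 / 4 := (min_le_right _ _).trans (min_le_right _ _)
  set η : ℝ := min (min 1 (g0 / 4)) (min (τ / 4) (min (ε₁ / (2 * (r + 12))) (γ * ε₁ / 2))) with hηd
  have hη : 0 < η := by rw [hηd]; positivity
  have hη1 : η ≤ 1 := (min_le_left _ _).trans (min_le_left _ _)
  have hη2 : η ≤ g0 / 4 := (min_le_left _ _).trans (min_le_right _ _)
  have hη3 : η ≤ τ / 4 := (min_le_right _ _).trans (min_le_left _ _)
  have hη4 : η ≤ ε₁ / (2 * (r + 12)) :=
    (min_le_right _ _).trans ((min_le_right _ _).trans (min_le_left _ _))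
  have hη5 : η ≤ γ * ε₁ / 2 :=
    (min_le_right _ _).trans ((min_le_right _ _).trans (min_le_right _ _))
  rw [le_div_iff₀ (by positivity)] at hη4
  obtain ⟨κ, hκ, hloc⟩ := block_group_smooth (G := G) r hr c cm hc1 hcm g0 hgap f f1 f2 hd1 hd2 hord
    τ hτ hpos ε₁ (by linarith) 2 (by norm_num) η hη hη1 hη2 hη3 (by nlinarith)
  have hbad := bad_count r hr c cm hc1 hcm g0 hgap f1 f2 hd2 hord ε₁ η hε₁
    hη (by linarith) (by linarith) (by linarith) (by nlinarith) 2 (by norm_num)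
  refine ⟨κ, hκ, ?_⟩
  filter_upwards [hloc, hbad, hblocks ε₁ hε₁, eventually_ge_atTop (4 : ℝ),
    ev_pow ((r + 12) * η) ε₁ 4 (by nlinarith),
    ev_pow ε₁ 1 24 (by linarith),
    ev_pow (1 - ε) (1 - ε₁) 24 (by linarith),
    ev_pow (-η) 0 24 (by linarith)]
    with X hX hXbad hXblocks hX4 p1 p2 p3 p4
  intro g
  have hX0 : 0 < X := by linarith
  rw [Real.rpow_one] at p2
  rw [Real.rpow_zero] at p4
  obtain ⟨B, hB1, hB2, hN⟩ := hXblocks
  choose N hN1 hN2 hN3 using hN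
  have hB0 : (0 : ℝ) < B := lt_of_lt_of_le (by positivity) hB1
  have hBpos : 0 < B := by exact_mod_cast hB0
  set W : ℕ := ⌊(X / 2 - 1) / (3 * B)⌋₊ with hW
  have hW1 : (W : ℝ) * (3 * B) ≤ X / 2 - 1 := by
    rw [← le_div_iff₀ (by positivity)]
    apply Nat.floor_le
    apply div_nonneg _ (by positivity)
    linarith
  have hBX : 24 * (B : ℝ) ≤ X := by
    have : 24 * (B : ℝ) ≤ 24 * X ^ ε₁ := by linarith
    linarith
  have hXB : 24 ≤ X / B := by
    rw [le_div_iff₀ hB0]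
    exact hBX
  have hW2 : X / (12 * B) ≤ W := by
    have h1 : (X / 2 - 1) / (3 * B) < W + 1 := Nat.lt_floor_add_one _
    have h2 : X / (12 * B) + 1 ≤ (X / 2 - 1) / (3 * B) := by
      rw [le_div_iff₀ (by positivity)]
      have h3 : (X / (12 * B) + 1) * (3 * B) = X / 4 + 3 * B := by field_simp; ring
      rw [h3]
      have h4 : (1 : ℝ) ≤ B := by exact_mod_cast hBpos
      linarith
    linarith
  set x : ℕ → ℕ := fun i => ⌈X / 2⌉₊ + i * (3 * B) with hx
  have hxlo : ∀ i, X / 2 ≤ ((N (x i) : ℕ) : ℝ) := by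
    intro i
    refine (Nat.le_ceil (X / 2)).trans ?_
    have : ⌈X / 2⌉₊ ≤ N (x i) := le_trans (by rw [hx]; exact Nat.le_add_right _ _) (hN1 (x i))
    exact_mod_cast this
  have hxhi : ∀ i < W, ((N (x i) : ℕ) : ℝ) + B ≤ X := by
    intro i hi
    have h1 : N (x i) + B ≤ ⌈X / 2⌉₊ + (i + 1) * (3 * B) := by
      have h2 := hN2 (x i)
      have h3 : x i = ⌈X / 2⌉₊ + i * (3 * B) := rfl
      have h4 : (i + 1) * (3 * B) = i * (3 * B) + 3 * B := by ring
      omega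
    have h2 : ((N (x i) + B : ℕ) : ℝ) ≤ ((⌈X / 2⌉₊ + (i + 1) * (3 * B) : ℕ) : ℝ) := by
      exact_mod_cast h1
    push_cast at h2
    have h3 : ((⌈X / 2⌉₊ : ℕ) : ℝ) < X / 2 + 1 := Nat.ceil_lt_add_one (by positivity)
    have h4 : ((i : ℝ) + 1) * (3 * B) ≤ W * (3 * B) := by
      have : ((i + 1 : ℕ) : ℝ) ≤ W := by exact_mod_cast hi
      push_cast at this
      gcongr
    linarith
  have hsepi : ∀ i j, i < j → N (x i) + B ≤ N (x j) := by
    intro i j hij
    have h2 := hN2 (x i)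
    have h3 := hN1 (x j)
    have h4 : x j = x i + (j - i) * (3 * B) := by
      have : j = i + (j - i) := by omega
      have h5 : j * (3 * B) = i * (3 * B) + (j - i) * (3 * B) := by
        rw [← add_mul]; congr 1
      simp only [hx]
      omega
    have h5 : 1 * (3 * B) ≤ (j - i) * (3 * B) := Nat.mul_le_mul_right _ (by omega)
    omega
  have hinj : ∀ i j, N (x i) = N (x j) → i = j := by
    intro i j h
    rcases lt_trichotomy i j with h1 | h1 | h1
    · have := hsepi i j h1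
      omega
    · exact h1
    · have := hsepi j i h1
      omega
  set Ω : Finset ℕ := (range W).image (fun i => N (x i)) with hΩ
  have hΩcard : Ω.card = W := by
    rw [hΩ, card_image_of_injective _ (fun i j h => hinj i j h), card_range]
  have hΩ1 : ∀ M ∈ Ω, X / 2 ≤ (M : ℝ) ∧ (M : ℝ) + B ≤ X := by
    intro M hM
    obtain ⟨i, hi, rfl⟩ := mem_image.1 hM
    exact ⟨hxlo i, hxhi i (mem_range.1 hi)⟩
  have hΩsep : ∀ u ∈ Ω, ∀ v ∈ Ω, u < v → u + B ≤ v := by
    intro u hu v hv huv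
    obtain ⟨i, hi, rfl⟩ := mem_image.1 hu
    obtain ⟨j, hj, rfl⟩ := mem_image.1 hv
    rcases lt_trichotomy i j with h1 | h1 | h1
    · exact hsepi i j h1
    · rw [h1] at huv
      omega
    · have := hsepi j i h1
      omega
  have hbadc := hXbad B hBpos hB2 Ω (fun M hM => ⟨(hΩ1 M hM).1, by linarith [(hΩ1 M hM).2]⟩) hΩsep
  set Ω' : Finset ℕ := Ω.filter (fun M => Good r f1 η X M) with hΩ'
  have hΩ'card : X / (24 * B) ≤ Ω'.card := by
    have e1 : Ω'.card + (Ω.filter (fun M => ¬ Good r f1 η X M)).card = Ω.card := by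
      rw [hΩ', card_filter_add_card_filter_not]
    have e2 : (Ω'.card : ℝ) + ((Ω.filter (fun M => ¬ Good r f1 η X M)).card : ℝ) = W := by
      rw [← hΩcard]
      exact_mod_cast e1
    have e3 : X / B * X ^ (-η) ≤ X / (24 * B) := by
      have h1 : X ^ (-η) ≤ 1 / 24 := by linarith
      calc X / B * X ^ (-η) ≤ X / B * (1 / 24) := by gcongr
        _ = X / (24 * B) := by field_simp
    have e4 : X / (12 * B) = X / (24 * B) + X / (24 * B) := by field_simp; ring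
    linarith
  have hpt : ∀ M ∈ Ω', ∃ m < B, f₀ (M + m) = g ∧
      ∀ j, ∀ q : ℕ, q.Prime → κ * ff X < |(q : ℝ) - f j ((M + m : ℕ) : ℝ)| := by
    intro M hM
    rw [hΩ', mem_filter] at hM
    obtain ⟨h1, h2⟩ := hΩ1 M hM.1
    refine hX B M (by
      refine le_trans ?_ hB1
      linarith) hB2 h1 h2 hM.2 (fun m => f₀ (M + m)) ?_ g
    intro χ hχ θ
    obtain ⟨i, _, rfl⟩ := mem_image.1 hM.1
    refine (hN3 (x i) χ hχ θ).trans ?_
    apply mul_le_mul_of_nonneg_left _ hB0.le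
    apply Real.rpow_le_rpow_of_exponent_le (by linarith)
    linarith
  choose! m hm1 hm2 hm3 using hpt
  have hcardle : Ω'.card ≤ ((range (⌊X⌋₊ + 1)).filter (fun n => f₀ n = g ∧
        ∀ j, ∀ q : ℕ, q.Prime → κ * ff X < |(q : ℝ) - f j (n : ℝ)|)).card := by
    apply card_le_card_of_injOn (fun M => M + m M)
    · intro M hM
      have hM' : M ∈ Ω' := hM
      simp only [coe_filter, mem_range, Set.mem_ofPred_eq]
      refine ⟨?_, hm2 M hM', hm3 M hM'⟩
      apply Nat.lt_succ_of_le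
      apply Nat.le_floor
      have h1 := hm1 M hM'
      rw [hΩ', mem_filter] at hM'
      have h2 := (hΩ1 M hM'.1).2
      push_cast
      have h3 : ((m M : ℕ) : ℝ) ≤ B := by exact_mod_cast h1.le
      linarith
    · intro M hM M' hM' hMM
      have h1 : M ∈ Ω' := hM
      have h2 : M' ∈ Ω' := hM'
      simp only at hMM
      have h3 := hm1 M h1
      have h4 := hm1 M' h2
      rw [hΩ', mem_filter] at h1 h2
      rcases lt_trichotomy M M' with h | h | h
      · have := hΩsep M h1.1 M' h2.1 h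
        omega
      · exact h
      · have := hΩsep M' h2.1 M h1.1 h
        omega
  have hfin : X ^ (1 - ε) ≤ X / (24 * B) := by
    rw [le_div_iff₀ (by positivity)]
    calc X ^ (1 - ε) * (24 * B) = (24 * X ^ (1 - ε)) * B := by ring
      _ ≤ X ^ (1 - ε₁) * X ^ ε₁ := by gcongr
      _ = X := by
        rw [← Real.rpow_add hX0]
        have : 1 - ε₁ + ε₁ = 1 := by ring
        rw [this, Real.rpow_one]
  calc X ^ (1 - ε) ≤ X / (24 * B) := hfin
    _ ≤ Ω'.card := hΩ'card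
    _ ≤ _ := by exact_mod_cast hcardle

end

end Pool.Agent.U602.AB
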