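import Pool.Agent.U602.AB.Grp
import Pool.Agent.U602.AB.Family

set_option autoImplicit false
set_option linter.unusedSectionVars false

/-! Record gaps around numbers and their real multiples in short intervals, with a prescribed value
of a function with small exponential sums in blocks. -/

namespace Pool.Agent.U602.AB

open Finset Filter Topology
open Pool.Agent.H469R2.NK (e norm_e e_add e_zero)
open Pool.Agent.W147.PS (ff ff_compare ev_pow)

variable {G : Type} [AddCommGroup G] [Fintype G]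

theorem family_lin (f₀ : ℕ → G) (hf : Blocks f₀) (r : ℕ) (hr : 1 ≤ r)
    (α β : Fin r → ℝ) (hα : ∀ j, 0 < α j) (c τ : ℝ) (hc : 0 < c) (hτ : 0 ≤ τ)
    (hdio : ∀ (H : ℕ) (h : Fin r → ℤ), h ≠ 0 → (∀ j, |h j| ≤ H) → ∀ m : ℤ,
      c * (H : ℝ) ^ (-τ) ≤ |∑ j, (h j : ℝ) * α j - m|)
    (ε : ℝ) (hε : 0 < ε) :
    ∃ κ : ℝ, 0 < κ ∧ ∀ᶠ M : ℝ in atTop, ∀ g : G, ∃ n : ℕ, M < n ∧ (n : ℝ) ≤ M + M ^ ε ∧
      f₀ n = g ∧ (∀ q : ℕ, q.Prime → κ * ff M < |(q : ℝ) - n|) ∧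
        ∀ j, ∀ q : ℕ, q.Prime → κ * ff M < |(q : ℝ) - (α j * n + β j)| := by
  obtain ⟨γ, hγ, hblocks⟩ := hf
  set δ : ℝ := ε / 2 with hδ
  have hδ0 : 0 < δ := by rw [hδ]; positivity
  set η : ℝ := min (1 / 2) (min (γ * δ / 2) (δ / (2 * (τ + 4)))) with hη
  have hη0 : 0 < η := by rw [hη]; positivity
  have hη1 : η ≤ 1 / 2 := min_le_left _ _
  have hη2 : η ≤ γ * δ / 2 := (min_le_right _ _).trans (min_le_left _ _)
  have hη3 : η ≤ δ / (2 * (τ + 4)) := (min_le_right _ _).trans (min_le_right _ _)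
  rw [le_div_iff₀ (by positivity)] at hη3
  obtain ⟨κ, hκ, hblock⟩ := block_group_lin (G := G) r hr α β hα c τ hc hτ hdio η hη0 hη1
  refine ⟨κ, hκ, ?_⟩
  filter_upwards [hblock, hblocks δ hδ0, eventually_ge_atTop (1 : ℝ),
    ev_pow ((τ + 4) * η) δ 4 (by nlinarith), ev_pow δ ε 4 (by rw [hδ]; linarith)]
    with M hM hMb hM1 p1 p2
  intro g
  have hM0 : 0 < M := by linarith
  obtain ⟨B, hB1, hB2, hN⟩ := hMb
  obtain ⟨N, hN1, hN2, hN3⟩ := hN (⌊M⌋₊ + 1)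
  have hB0 : (0 : ℝ) < B := lt_of_lt_of_le (by positivity) hB1
  have hMN : M < N := by
    refine lt_of_lt_of_le (Nat.lt_floor_add_one M) ?_
    exact_mod_cast hN1
  obtain ⟨n, hn, hng, h1, h2⟩ := hM N B hMN.le (by
    refine le_trans ?_ hB1
    linarith) (fun n => f₀ (N + n)) (by
    intro χ hχ x
    refine (hN3 χ hχ x).trans ?_
    apply mul_le_mul_of_nonneg_left _ hB0.le
    apply Real.rpow_le_rpow_of_exponent_le hM1
    linarith) g
  refine ⟨N + n, ?_, ?_, hng, h1, h2⟩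
  · push_cast
    have : (0 : ℝ) ≤ n := Nat.cast_nonneg n
    linarith
  · have h3 : N + n ≤ ⌊M⌋₊ + 3 * B := by omega
    have h5 : ((N + n : ℕ) : ℝ) ≤ ⌊M⌋₊ + 3 * B := by exact_mod_cast h3
    have h6 := Nat.floor_le hM0.le
    have h7 : 0 ≤ M ^ δ := by positivity
    linarith

end Pool.Agent.U602.AB
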