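import Pool.Agent.U602.JD.Local

set_option autoImplicit false
set_option linter.unusedSectionVars false

/-! Record gaps around a member of a finite set of integers and its real multiples, when the
exponential sums over the set are small away from the integers. -/

namespace Pool.Agent.U602.AB

open Finset Filter Topology
open Pool.Agent.H469R2.NK (e norm_e e_add e_zero)
open Pool.Agent.W147.PS (ff ff_compare ev_pow)
open Pool.Agent.U602.JD (crit_joint ev_lin)

theorem block_lin (r : ℕ) (hr : 1 ≤ r)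
    (α β : Fin r → ℝ) (hα : ∀ j, 0 < α j) (c τ : ℝ) (hc : 0 < c) (hτ : 0 ≤ τ)
    (hdio : ∀ (H : ℕ) (h : Fin r → ℤ), h ≠ 0 → (∀ j, |h j| ≤ H) → ∀ m : ℤ,
      c * (H : ℝ) ^ (-τ) ≤ |∑ j, (h j : ℝ) * α j - m|)
    (η : ℝ) (hη0 : 0 < η) (hη1 : η ≤ 1 / 2) :
    ∃ κ : ℝ, 0 < κ ∧ ∀ᶠ M : ℝ in atTop, ∀ s : Finset ℕ, s.Nonempty → (∀ m ∈ s, M ≤ (m : ℝ)) →
      (∀ θ : ℝ, (∀ k : ℤ, M ^ (-((τ + 2) * η)) ≤ |θ - k|) →
        ‖∑ m ∈ s, e (θ * m)‖ ≤ s.card * M ^ (-η)) →
      ∃ m ∈ s, (∀ q : ℕ, q.Prime → κ * ff M < |(q : ℝ) - m|) ∧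
        ∀ j, ∀ q : ℕ, q.Prime → κ * ff M < |(q : ℝ) - (α j * m + β j)| := by
  obtain ⟨κ, hκ, hcrit⟩ := crit_joint r hr 1 one_pos η hη0 (by linarith)
  refine ⟨κ, hκ, ?_⟩
  filter_upwards [hcrit, eventually_ge_atTop (1 : ℝ), ev_lin η (by linarith) α β hα,
    ev_pow (-η) 0 (1 / c) (by linarith)] with M hM hM1 hMlin hMc
  intro s hs hsM hE
  have hM0 : 0 < M := by linarith
  have hMη : 1 ≤ M ^ η := Real.one_le_rpow hM1 hη0.le
  have hcM : M ^ (-η) ≤ c := by
    rw [Real.rpow_zero, div_mul_eq_mul_div, one_mul, div_le_one hc] at hMc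
    exact hMc
  have hρ1 : M ^ (-((τ + 2) * η)) ≤ M ^ (-η) :=
    Real.rpow_le_rpow_of_exponent_le hM1 (by nlinarith)
  have hρ2 : M ^ (-((τ + 2) * η)) ≤ c * M ^ (-(τ * η)) * M ^ (-η) := by
    have h1 : M ^ (-((τ + 2) * η)) = M ^ (-η) * M ^ (-(τ * η)) * M ^ (-η) := by
      rw [← Real.rpow_add hM0, ← Real.rpow_add hM0]
      congr 1
      ring
    rw [h1]
    gcongr
  obtain ⟨m, hm, h1, h2⟩ := hM ℕ s (fun m => (m : ℤ)) (fun m j => α j * m + β j) hs (by
    intro m hm
    have h2 : M ^ η ≤ M := by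
      calc M ^ η ≤ M ^ (1 : ℝ) := Real.rpow_le_rpow_of_exponent_le hM1 (by linarith)
        _ = M := Real.rpow_one M
    rw [Int.cast_natCast]
    exact h2.trans (hsM m hm)) (fun m hm j => hMlin _ (hsM m hm) j) (by
    intro q hq hqX _
    have hq0 : (0 : ℝ) < q := by exact_mod_cast hq
    have hqi : M ^ (-η) ≤ 1 / q := by
      rw [Real.rpow_neg hM0.le, ← one_div]
      exact one_div_le_one_div_of_le hq0 hqX
    refine ⟨?_, ?_⟩
    · intro l hl1 hl2
      have h1 := hE ((l : ℝ) / q) (by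
        intro k
        refine hρ1.trans (hqi.trans ?_)
        have hne : ((l : ℤ) - k * q : ℤ) ≠ 0 := by
          intro h0
          have h3 : (q : ℤ) ∣ (l : ℤ) := ⟨k, by linarith⟩
          have h4 : q ∣ l := by exact_mod_cast h3
          have := Nat.le_of_dvd (by omega) h4
          omega
        have e1 : (l : ℝ) / q - k = (((l : ℤ) - k * q : ℤ) : ℝ) / q := by
          push_cast
          field_simp
        rw [e1, abs_div, abs_of_pos hq0]
        apply div_le_div_of_nonneg_right _ hq0.le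
        have := Int.one_le_abs hne
        exact_mod_cast this)
      simpa using h1
    · intro l _ h hh hhX
      have h1 := hE ((l : ℝ) / q + ∑ j, (h j : ℝ) * (α j / q)) (by
        intro k
        set H₀ : ℕ := ⌊M ^ η⌋₊ with hH₀
        have hH₀1 : 1 ≤ H₀ := Nat.le_floor (by rw [Nat.cast_one]; exact hMη)
        have hH₀X : (H₀ : ℝ) ≤ M ^ η := Nat.floor_le (by positivity)
        have hhH : ∀ j, |h j| ≤ (H₀ : ℤ) := by
          intro j
          have h3 : ((h j).natAbs : ℝ) ≤ M ^ η := by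
            rw [Nat.cast_natAbs]
            push_cast
            exact hhX j
          have h4 : (h j).natAbs ≤ H₀ := Nat.le_floor h3
          rw [Int.abs_eq_natAbs]
          exact_mod_cast h4
        have hdz := hdio H₀ h hh hhH (k * q - l)
        have e1 : (l : ℝ) / q + ∑ j, (h j : ℝ) * (α j / q) - k =
            (∑ j, (h j : ℝ) * α j - ((k * q - l : ℤ) : ℝ)) / q := by
          have e3 : ∑ j, (h j : ℝ) * (α j / q) = (∑ j, (h j : ℝ) * α j) / q := by
            rw [sum_div]
            refine sum_congr rfl fun j _ => ?_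
            ring
          rw [e3]
          push_cast
          field_simp
          ring
        rw [e1, abs_div, abs_of_pos hq0, le_div_iff₀ hq0]
        refine le_trans ?_ hdz
        have hH0 : (0 : ℝ) < (H₀ : ℝ) := by exact_mod_cast hH₀1
        have e4 : (M ^ η) ^ (-τ) ≤ (H₀ : ℝ) ^ (-τ) :=
          Real.rpow_le_rpow_of_nonpos hH0 hH₀X (by linarith)
        have e5 : (M ^ η) ^ (-τ) = M ^ (-(τ * η)) := by
          rw [← Real.rpow_mul hM0.le]
          congr 1
          ring
        calc M ^ (-((τ + 2) * η)) * q ≤ (c * M ^ (-(τ * η)) * M ^ (-η)) * M ^ η := by gcongr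
          _ = c * (M ^ η) ^ (-τ) := by
              rw [e5, mul_assoc, ← Real.rpow_add hM0]
              simp
          _ ≤ _ := by gcongr)
      have h2 : ∑ m ∈ s, e ((l : ℝ) / q * ((m : ℤ) : ℝ) +
          ∑ j, (h j : ℝ) * ((α j * m + β j) / q)) =
          e (∑ j, (h j : ℝ) * (β j / q)) *
            ∑ m ∈ s, e (((l : ℝ) / q + ∑ j, (h j : ℝ) * (α j / q)) * m) := by
        rw [mul_sum]
        refine sum_congr rfl fun m _ => ?_
        rw [← e_add]
        congr 1
        have e1 : ∑ j, (h j : ℝ) * ((α j * m + β j) / q) =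
            (∑ j, (h j : ℝ) * (α j / q)) * m + ∑ j, (h j : ℝ) * (β j / q) := by
          rw [sum_mul, ← sum_add_distrib]
          refine sum_congr rfl fun j _ => ?_
          ring
        rw [e1]
        push_cast
        ring
      rw [h2, norm_mul, norm_e, one_mul]
      exact h1)
  exact ⟨m, hm, fun q hq => by simpa using h1 q hq, h2⟩

end Pool.Agent.U602.AB
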